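import Mathlib
import Pool.Graph.R_pool_sql_team_seeded_efc1946e.K1H86.TZ.Lim

/-! A path of patterns which belongs to infinitely many of given sets of large measure: a version of the
construction of a path in the library file K1H86/TZ/Lim, for arbitrary sets in place of the blocks. -/

set_option autoImplicit false

namespace Pool.Agent.H616.TG

open Finset Filter Topology
open Pool.Agent.K1H86.TZ (FA exists_lim hit node Pt)

theorem path (V : ℕ → Finset ℕ) (hV : Monotone V) (hV0 : V 0 = ∅) (G : ℕ → Finset ℕ → Prop)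
    (P : ℕ → Set (Finset ℕ) → ℝ) (hP : ∀ J, FA (P J))
    (hsupp : ∀ i J, i ≤ J → P J {T | ¬ G i (T ∩ V i)} = 0)
    (F : ℕ → Set (Finset ℕ)) (hF : ∀ j T, T ∈ F j ↔ T ∩ V (j + 1) ∈ F j) (c : ℝ) (hc : 0 < c)
    (hhit : ∀ i J, i < J → c ≤ P J (F i)) :
    ∃ x : Set ℕ, x ⊆ (⋃ i, (V i : Set ℕ)) ∧ (∀ i (τ : Finset ℕ), (∀ t, t ∈ τ ↔ t ∈ V i ∧ t ∈ x) → G i τ) ∧
      ∀ i0, ∃ i, i0 ≤ i ∧ ∀ τ : Finset ℕ, (∀ t, t ∈ τ ↔ t ∈ V (i + 1) ∧ t ∈ x) → τ ∈ F i := by
  classical
  obtain ⟨m, hm, hmt⟩ := exists_lim P hP (hyperfilter ℕ)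
  have hle : ((hyperfilter ℕ : Ultrafilter ℕ) : Filter ℕ) ≤ atTop := Nat.hyperfilter_le_atTop
  obtain ⟨lam, hl, hlt⟩ := exists_lim (fun l A => m (A ∩ F l)) (fun l => hm.inter (F l)) (hyperfilter ℕ)
  have hm0 : ∀ i, m {T | ¬ G i (T ∩ V i)} = 0 := by
    intro i
    refine tendsto_nhds_unique (hmt _) ?_
    refine tendsto_const_nhds.congr' ?_
    filter_upwards [hle (eventually_ge_atTop i)] with J hJ
    exact (hsupp i J hJ).symm
  have hmF : ∀ j, c ≤ m (F j) := by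
    intro j
    refine ge_of_tendsto (hmt _) ?_
    filter_upwards [hle (eventually_gt_atTop j)] with J hJ
    exact hhit j J hJ
  have hlm : ∀ A, lam A ≤ m A := by
    intro A
    refine le_of_tendsto (hlt A) ?_
    filter_upwards with l
    exact hm.mono Set.inter_subset_left
  have hroot : 0 < lam (node (V 0) ∅) := by
    have h1 : node (V 0) ∅ = Set.univ := by
      ext T
      simp [node, hV0]
    rw [h1]
    refine hc.trans_le (ge_of_tendsto (hlt _) ?_)
    filter_upwards with l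
    rw [Set.univ_inter]
    exact hmF l
  have hstep : ∀ p : Pt V lam, ∃ q : Pt V lam, p.i < q.i ∧ q.τ ∩ V p.i = p.τ ∧
      ∃ j, p.i ≤ j ∧ q.i = j + 1 ∧ q.τ ∈ F j := by
    intro p
    obtain ⟨j, hj, hpos⟩ := hit hm hl F (hyperfilter ℕ) hle hlt (node (V p.i) p.τ) p.pos p.i
    set S := (V (j + 1)).powerset.filter (fun τ' => τ' ∩ V p.i = p.τ ∧ τ' ∈ F j) with hS
    have hsub : node (V p.i) p.τ ∩ F j ⊆ ⋃ τ' ∈ S, node (V (j + 1)) τ' := by
      rintro T ⟨h1, h2⟩
      have h1' : T ∩ V p.i = p.τ := h1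
      rw [Set.mem_iUnion₂]
      refine ⟨T ∩ V (j + 1), ?_, rfl⟩
      rw [hS, mem_filter, mem_powerset]
      refine ⟨inter_subset_right, ?_, ?_⟩
      · rw [inter_assoc, inter_eq_right.2 (hV (by omega : p.i ≤ j + 1)), h1']
      · exact (hF j T).1 h2
    have hsum : 0 < ∑ τ' ∈ S, lam (node (V (j + 1)) τ') :=
      hpos.trans_le ((hl.mono hsub).trans (hl.biUnion_le S _))
    obtain ⟨τ', hτ', hτpos⟩ : ∃ τ' ∈ S, 0 < lam (node (V (j + 1)) τ') := by
      by_contra hcon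
      push Not at hcon
      exact absurd hsum (not_lt.2 (sum_nonpos hcon))
    rw [hS, mem_filter, mem_powerset] at hτ'
    obtain ⟨h1, h2, h3⟩ := hτ'
    exact ⟨⟨j + 1, τ', h1, hτpos⟩, by show p.i < j + 1; omega, h2, j, hj, rfl, h3⟩
  choose nx hn1 hn2 hn3 using hstep
  let p : ℕ → Pt V lam := fun n => Nat.rec ⟨0, ∅, by simp, hroot⟩ (fun _ q => nx q) n
  have hps : ∀ n, p (n + 1) = nx (p n) := fun n => rfl
  have hpi : StrictMono (fun n => (p n).i) := by
    apply strictMono_nat_of_lt_succ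
    intro n
    rw [hps]
    exact hn1 _
  have hcons : ∀ a b, a ≤ b → (p b).τ ∩ V (p a).i = (p a).τ := by
    intro a b hab
    induction b, hab using Nat.le_induction with
    | base => exact inter_eq_left.2 (p a).sub
    | succ b hab ih =>
      rw [hps]
      have h1 : V (p a).i ⊆ V (p b).i := hV (hpi.monotone hab)
      rw [← ih, ← hn2 (p b), inter_assoc, inter_eq_right.2 h1]
  -- the part of the path in `V i`
  have hpart : ∀ (n i : ℕ) (τ : Finset ℕ), i ≤ (p n).i →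
      (∀ t, t ∈ τ ↔ t ∈ V i ∧ t ∈ {t | ∃ n, t ∈ (p n).τ}) → τ = (p n).τ ∩ V i := by
    intro n i τ hin hτ
    ext t
    rw [hτ, mem_inter]
    constructor
    · rintro ⟨h2, n', hn'⟩
      refine ⟨?_, h2⟩
      rcases Nat.le_total n' n with h3 | h3
      · rw [← hcons n' n h3] at hn'
        exact (mem_inter.1 hn').1
      · rw [← hcons n n' h3, mem_inter]
        exact ⟨hn', hV hin h2⟩
    · rintro ⟨h2, h3⟩
      exact ⟨h3, n, h2⟩
  refine ⟨{t | ∃ n, t ∈ (p n).τ}, ?_, ?_, ?_⟩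
  · rintro t ⟨n, hn⟩
    rw [Set.mem_iUnion]
    exact ⟨(p n).i, (p n).sub hn⟩
  · intro i τ hτ
    have hin : i ≤ (p i).i := hpi.le_apply
    have h1 : τ = (p i).τ ∩ V i := hpart i i τ hin hτ
    rw [h1]
    by_contra hcon
    have h2 : node (V (p i).i) (p i).τ ⊆ {T | ¬ G i (T ∩ V i)} := by
      intro T hT
      have h3 : T ∩ V (p i).i = (p i).τ := hT
      show ¬ G i (T ∩ V i)
      rw [← h3, inter_assoc, inter_eq_right.2 (hV hin)] at hcon
      exact hcon
    have h3 := hlm (node (V (p i).i) (p i).τ)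
    have h4 := hm.mono h2
    rw [hm0] at h4
    have h5 := (p i).pos
    linarith
  · intro i0
    obtain ⟨j, hj, hji, hjF⟩ := hn3 (p i0)
    refine ⟨j, (hpi.le_apply (x := i0)).trans hj, fun τ hτ => ?_⟩
    have h1 : τ = (p (i0 + 1)).τ ∩ V (j + 1) := hpart (i0 + 1) (j + 1) τ (by rw [hps, hji]) hτ
    have h2 : (p (i0 + 1)).τ ∩ V (j + 1) = (p (i0 + 1)).τ := by
      apply inter_eq_left.2
      have h3 := (p (i0 + 1)).sub
      have h4 : (p (i0 + 1)).i = j + 1 := by rw [hps, hji]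
      rw [h4] at h3
      exact h3
    rw [h1, h2, hps]
    exact hjF

end Pool.Agent.H616.TG
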