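import Mathlib
import Pool.Graph.R_pool_sql_team_seeded_efc1946e.K1H86.TZ.Par

/-! The parameters of the blocks with arbitrary shares (adapted from the library file K1H86/TZ/Par). -/

set_option autoImplicit false

namespace Pool.Agent.H616.TG

open Finset
open Pool.Agent.H95R2.BG
open Pool.Agent.Y876.HS (El bm_le sum_g_le)
open Pool.Agent.H358R5 (g D A B Fw bm)

open Pool.Agent.K1H86.TZ (exists_K bm_ge par_one)

/-- the parameter `m` of a block; the share of the block is `1 / (sh j + 2)` -/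
def mm (sh : ℕ → ℕ) (j : ℕ) : ℕ := 4 * (sh j + 2)

theorem mm_ge (sh : ℕ → ℕ) (j : ℕ) : 8 ≤ mm sh j := by
  unfold mm
  omega

theorem mm_r (sh : ℕ → ℕ) (j : ℕ) : (mm sh j : ℝ) = 4 * ((sh j : ℝ) + 2) := by
  unfold mm
  push_cast
  ring

/-- the size of a block, minus one -/
noncomputable def kk (sh : ℕ → ℕ) (j : ℕ) : ℕ :=
  Classical.choose (exists_K (mm sh j) (by have := mm_ge sh j; omega))

theorem kk1 (sh : ℕ → ℕ) (j : ℕ) : 4 * (mm sh j : ℝ) + 29 / 50 ≤ Real.log ((kk sh j : ℝ) + 1) :=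
  (Classical.choose_spec (exists_K (mm sh j) (by have := mm_ge sh j; omega))).1

theorem kk2 (sh : ℕ → ℕ) (j : ℕ) : Real.log ((kk sh j : ℝ) + 1) ≤ 4 * mm sh j + 1 :=
  (Classical.choose_spec (exists_K (mm sh j) (by have := mm_ge sh j; omega))).2

/-- the parameters of a block -/
structure BP (sh : ℕ → ℕ) (N1 j L N : ℕ) : Prop where
  hL : 100 * (kk sh j + 1) ≤ L
  h1 : bm (mm sh j) * ((L : ℝ) * ((kk sh j : ℝ) + 1)) ≤ N
  h2 : (N : ℝ) ≤ bm (mm sh j) * ((L : ℝ) * ((kk sh j : ℝ) + 1)) + 1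
  h3 : (sh j + 2) * N ≤ N1
  h4 : N1 ≤ 2 * (sh j + 2) * N

theorem params (sh : ℕ → ℕ) (J : ℕ) :
    ∃ (N1 : ℕ) (L N : ℕ → ℕ), 8 ≤ N1 ∧ ∀ j < J, BP sh N1 j (L j) (N j) := by
  have h1 : ∀ j : ℕ, ∃ X0 : ℝ, ∀ Y : ℝ, X0 ≤ Y → ∃ L N : ℕ,
    100 * (kk sh j + 1) ≤ L ∧ bm (mm sh j) * ((L : ℝ) * ((kk sh j + 1 : ℕ) : ℝ)) ≤ N ∧
      (N : ℝ) ≤ bm (mm sh j) * ((L : ℝ) * ((kk sh j + 1 : ℕ) : ℝ)) + 1 ∧ (N : ℝ) ≤ Y ∧
    Y ≤ 2 * N := fun j => par_one (mm sh j) (kk sh j + 1) (by have := mm_ge sh j; omega) (by omega)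
  choose X0 hX0 using h1
  obtain ⟨N1, hN1⟩ := exists_nat_ge (∑ j ∈ range J, ((sh j : ℝ) + 2) * |X0 j| + 8)
  have hbig : ∀ j < J, X0 j ≤ (N1 : ℝ) / ((sh j : ℝ) + 2) := by
    intro j hj
    rw [le_div_iff₀ (by positivity)]
    have h2 : ((sh j : ℝ) + 2) * |X0 j| ≤ ∑ j ∈ range J, ((sh j : ℝ) + 2) * |X0 j| :=
      single_le_sum (f := fun j => ((sh j : ℝ) + 2) * |X0 j|) (fun j _ => by positivity) (mem_range.2 hj)
    have h3 := le_abs_self (X0 j)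
    have h4 : (0 : ℝ) < (sh j : ℝ) + 2 := by positivity
    nlinarith
  have hch : ∀ j, ∃ L N : ℕ, j < J → BP sh N1 j L N := by
    intro j
    by_cases hj : j < J
    · obtain ⟨L, N, a1, a2, a3, a4, a5⟩ := hX0 j _ (hbig j hj)
      refine ⟨L, N, fun _ => ⟨a1, ?_, ?_, ?_, ?_⟩⟩
      · push_cast at a2
        exact a2
      · push_cast at a3
        exact a3
      · rw [le_div_iff₀ (by positivity)] at a4
        have h5 : (((sh j + 2) * N : ℕ) : ℝ) ≤ (N1 : ℝ) := by push_cast; linarith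
        exact_mod_cast h5
      · rw [div_le_iff₀ (by positivity)] at a5
        have h5 : (N1 : ℝ) ≤ ((2 * (sh j + 2) * N : ℕ) : ℝ) := by
          push_cast
          calc (N1 : ℝ) ≤ 2 * N * ((sh j : ℝ) + 2) := a5
            _ = 2 * ((sh j : ℝ) + 2) * N := by ring
        exact_mod_cast h5
    · exact ⟨0, 0, fun h => absurd h hj⟩
  choose L N hLN using hch
  refine ⟨N1, L, N, ?_, hLN⟩
  have h6 : (8 : ℝ) ≤ N1 := by
    have : 0 ≤ ∑ j ∈ range J, ((sh j : ℝ) + 2) * |X0 j| := sum_nonneg fun j _ => by positivity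
    linarith
  exact_mod_cast h6

theorem kkpos (sh : ℕ → ℕ) (j : ℕ) : (0 : ℝ) < (kk sh j : ℝ) + 1 := by positivity

namespace BP

variable {sh : ℕ → ℕ} {N1 j L N : ℕ}

theorem N_le (h : BP sh N1 j L N) : N ≤ N1 := by
  have h1 := h.h3
  have h2 : N ≤ (sh j + 2) * N := Nat.le_mul_of_pos_left _ (by positivity)
  omega

theorem r1 (h : BP sh N1 j L N) : (mm sh j : ℝ) * N ≤ 4 * N1 := by
  have h1 : (((sh j + 2) * N : ℕ) : ℝ) ≤ N1 := by exact_mod_cast h.h3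
  push_cast at h1
  rw [mm_r sh]
  linarith

theorem r2 (h : BP sh N1 j L N) : 2 * (N1 : ℝ) ≤ mm sh j * N := by
  have h1 : (N1 : ℝ) ≤ ((2 * (sh j + 2) * N : ℕ) : ℝ) := by exact_mod_cast h.h4
  push_cast at h1
  rw [mm_r sh]
  linarith

/-- lower bound for one form -/
theorem low (h : BP sh N1 j L N) : 8 * (N1 : ℝ) * D L (kk sh j + 1) N ≤
    ((kk sh j : ℝ) + 1) * ∑ s ∈ range (N + 1), A L (kk sh j) s * B L (N - s) ^ 2 := by
  have hm := mm_ge sh j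
  have key := Pool.Agent.H358R5.ASM_full (mm sh j) L (kk sh j) N (by omega) (kk1 sh j) h.hL h.h1 h.h2
  refine le_trans ?_ key
  have hL1 : 1 ≤ L := by have := h.hL; omega
  have h1 := Pool.Agent.Y876.HS.D_nonneg L (kk sh j + 1) N hL1
  have h2 := h.r2
  nlinarith

/-- `b ≤ 6 m` -/
theorem bb (h : BP sh N1 j L N) (hN1 : 1 ≤ N1) : ∑ t ∈ range N1, g L (t + 1) ≤ 6 * mm sh j := by
  have hm : (8 : ℝ) ≤ mm sh j := by exact_mod_cast mm_ge sh j
  have hL1 : 1 ≤ L := by have := h.hL; omega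
  have hL' : (1 : ℝ) ≤ L := by exact_mod_cast hL1
  have hK : (1 : ℝ) ≤ (kk sh j : ℝ) + 1 := by linarith [(Nat.cast_nonneg (kk sh j) : (0 : ℝ) ≤ kk sh j)]
  have h1 := sum_g_le L N1 hL1
  have hb := bm_le (mm sh j) (by have := mm_ge sh j; omega)
  have hN := h.h2
  have hr := h.r1
  have h4 : (N1 : ℝ) ≤ mm sh j / 2 * N := by
    have := h.r2
    linarith
  have h5 : (N1 : ℝ) + L ≤ (mm sh j * ((4 * mm sh j + 2) * ((kk sh j : ℝ) + 1))) * L := by
    have h6 : bm (mm sh j) * ((L : ℝ) * ((kk sh j : ℝ) + 1)) ≤ (4 * mm sh j + 1) * ((L : ℝ) * ((kk sh j : ℝ) + 1)) :=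
      mul_le_mul_of_nonneg_right hb (by positivity)
    have h7 : (N : ℝ) ≤ (4 * mm sh j + 2) * ((L : ℝ) * ((kk sh j : ℝ) + 1)) := by nlinarith
    have h8 : (mm sh j : ℝ) / 2 * N ≤ mm sh j / 2 * ((4 * mm sh j + 2) * ((L : ℝ) * ((kk sh j : ℝ) + 1))) :=
      mul_le_mul_of_nonneg_left h7 (by linarith)
    have h9 : (L : ℝ) ≤ mm sh j / 2 * ((4 * mm sh j + 2) * ((L : ℝ) * ((kk sh j : ℝ) + 1))) := by
      have h10 : (1 : ℝ) ≤ mm sh j / 2 * ((4 * mm sh j + 2) * ((kk sh j : ℝ) + 1)) :=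
        one_le_mul_of_one_le_of_one_le (by linarith) (one_le_mul_of_one_le_of_one_le (by linarith) hK)
      nlinarith
    nlinarith
  have h6 : Real.log ((N1 : ℝ) + L) ≤ (Real.log (mm sh j) + (Real.log (4 * mm sh j + 2) + Real.log ((kk sh j : ℝ) + 1))) +
      Real.log L := by
    rw [← Real.log_mul (by positivity) (by positivity), ← Real.log_mul (by positivity) (by positivity),
      ← Real.log_mul (by positivity) (by positivity)]
    exact Real.log_le_log (by positivity) h5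
  have h8 : Real.log 8 ≤ 2.08 := by
    have h9 := Real.log_two_lt_d9
    rw [show (8 : ℝ) = 2 ^ 3 by norm_num, Real.log_pow]
    push_cast
    linarith
  have hlog : ∀ y : ℝ, 0 < y → Real.log y ≤ y / 8 + 1.08 := by
    intro y hy
    have h9 := Real.log_le_sub_one_of_pos (show 0 < y / 8 by positivity)
    rw [Real.log_div hy.ne' (by norm_num)] at h9
    linarith
  have h9 := hlog (mm sh j) (by linarith)
  have h10 := hlog (4 * mm sh j + 2) (by linarith)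
  have h11 := kk2 sh j
  linarith

/-- the ratio of the square sums -/
theorem ratio (h : BP sh N1 j L N) (l : ℕ) (hl : (N1 : ℝ) / 3 ≤ l) (hN1 : 1 ≤ N1) :
    (6 * (mm sh j : ℝ)) ^ 2 / l * (5 / 2 * L) < 300 / ((kk sh j : ℝ) + 1) := by
  have hm : (8 : ℝ) ≤ mm sh j := by exact_mod_cast mm_ge sh j
  have hN1' : (1 : ℝ) ≤ N1 := by exact_mod_cast hN1
  have hl0 : (0 : ℝ) < l := by linarith
  have hK := kkpos sh j
  have hL1 : 1 ≤ L := by have := h.hL; omega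
  have hL' : (1 : ℝ) ≤ L := by exact_mod_cast hL1
  have h1 := h.h1
  have hb := bm_ge (mm sh j)
  have h2 := h.r1
  have h3 : 4 * (mm sh j : ℝ) * ((L : ℝ) * ((kk sh j : ℝ) + 1)) ≤ N :=
    (mul_le_mul_of_nonneg_right hb (by positivity)).trans h1
  have h4 : (mm sh j : ℝ) * (4 * (mm sh j : ℝ) * ((L : ℝ) * ((kk sh j : ℝ) + 1))) ≤ 4 * N1 :=
    (mul_le_mul_of_nonneg_left h3 (by linarith)).trans h2
  rw [div_mul_eq_mul_div, div_lt_div_iff₀ hl0 hK]
  nlinarith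

end BP

theorem sum_N (sh : ℕ → ℕ) (hc : ∀ J, ∑ j ∈ range J, 1 / ((sh j : ℝ) + 2) ≤ 1) (J N1 : ℕ) (L N : ℕ → ℕ)
    (h : ∀ j < J, BP sh N1 j (L j) (N j)) : ∑ j : Fin J, N j ≤ N1 := by
  have h1 : (∑ j ∈ range J, (N j : ℝ)) ≤ ∑ j ∈ range J, N1 * (1 / ((sh j : ℝ) + 2)) := by
    refine sum_le_sum fun j hj => ?_
    have h3 : (((sh j + 2) * N j : ℕ) : ℝ) ≤ N1 := by exact_mod_cast (h j (mem_range.1 hj)).h3
    push_cast at h3
    rw [mul_one_div, le_div_iff₀ (by positivity)]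
    linarith
  rw [← mul_sum] at h1
  have h3 : (∑ j ∈ range J, (N j : ℝ)) ≤ N1 := by
    refine h1.trans ?_
    have h5 : (0 : ℝ) ≤ N1 := Nat.cast_nonneg _
    have := hc J
    nlinarith
  have h4 : ∑ j : Fin J, N j = ∑ j ∈ range J, N j := Fin.sum_univ_eq_sum_range N J
  rw [h4]
  exact_mod_cast h3

end Pool.Agent.H616.TG
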