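import Mathlib
import Pool.Agent.H616.TG.Wts
import Pool.Graph.R_pool_sql_team_seeded_efc1946e.K1H86.PP.Often
import Pool.Graph.R_pool_sql_team_seeded_efc1946e.K1H86.TZ.Prob

/-! A probability measure on the patterns which occur often, under which every block contains a prime
with a probability bounded from below (helper86). -/

set_option autoImplicit false

namespace Pool.Agent.H616.TG

open Finset Filter
open Pool.Agent.H95R2.BG.LF
open Pool.Agent.Y876.HS (pat mem_pat BB)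
open Pool.Agent.K1H86.PP (Often)
open Pool.Agent.K1H86.TZ (cs not_often)

/-- the indices of the forms: `J` blocks -/
abbrev Ix (sh : ℕ → ℕ) (J : ℕ) : Type := Σ j : Fin J, Fin (kk sh j + 1)

/-- patterns of natural forms -/
theorem prob_fin (sh : ℕ → ℕ) (hsh : ∀ J, ∑ j ∈ range J, 1 / ((sh j : ℝ) + 2) ≤ 1) (J : ℕ) (hJ : 1 ≤ J) {K0 : ℕ} (e : Fin (K0 + 1) ≃ Ix sh J) (a b : Fin (K0 + 1) → ℕ)
    (hadm : AdmissibleL a b) : ∃ P : Finset (Fin (K0 + 1)) → ℝ, (∀ T, 0 ≤ P T) ∧ ∑ T, P T = 1 ∧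
      (∀ j : Fin J, (1 / 10 ^ 6 : ℝ) ≤ ∑ T ∈ univ.filter (fun T => ∃ i, e.symm ⟨j, i⟩ ∈ T), P T) ∧
      ∀ T, P T ≠ 0 → Often (BB (K0 + 1) + 1) (fun n => pat a b n = T) := by
  classical
  obtain ⟨δ, hδ⟩ : ∃ δ : ℝ, δ = 1 / (10 ^ 6 * 2 ^ (K0 + 1)) := ⟨_, rfl⟩
  have hδ0 : 0 < δ := by rw [hδ]; positivity
  have hbad : ∀ᶠ X : ℝ in atTop, ∀ T ∈ (univ : Finset (Finset (Fin (K0 + 1)))),
      ¬ Often (BB (K0 + 1) + 1) (fun n => pat a b n = T) →
      (((Icc 1 ⌊3 * X⌋₊).filter (fun n => pat a b n = T)).card : ℝ) < X / Real.log X ^ BB (K0 + 1) := by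
    rw [Filter.eventually_all_finset]
    intro T _
    by_cases h : Often (BB (K0 + 1) + 1) (fun n => pat a b n = T)
    · filter_upwards with X h'
      exact absurd h h'
    · filter_upwards [not_often h] with X hX _
      exact hX
  obtain ⟨X, hX1, hX2⟩ := ((weights sh hsh J hJ e a b hadm δ hδ0).and hbad).exists
  obtain ⟨W, S0, hS0, hW, h1, h2, h3, h4⟩ := hX1
  have h5 : ∀ T, ¬ Often (BB (K0 + 1) + 1) (fun n => pat a b n = T) → W T ≤ δ * S0 := fun T hT =>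
    h4 T (hX2 T (mem_univ _) hT)
  obtain ⟨W', hW'⟩ : ∃ W' : Finset (Fin (K0 + 1)) → ℝ, ∀ T, W' T =
    if Often (BB (K0 + 1) + 1) (fun n => pat a b n = T) then W T else 0 := ⟨_, fun _ => rfl⟩
  have hW'0 : ∀ T, 0 ≤ W' T := by
    intro T
    rw [hW']
    split_ifs
    · exact hW T
    · exact le_rfl
  have hW'le : ∀ T, W' T ≤ W T := by
    intro T
    rw [hW']
    split_ifs
    · exact le_rfl
    · exact hW T
  have hWW' : ∀ T, W T ≤ W' T + δ * S0 := by
    intro T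
    rw [hW']
    split_ifs with h
    · have : 0 ≤ δ * S0 := by positivity
      linarith
    · have := h5 T h
      linarith
  have hhit : ∀ j : Fin J, S0 / 10 ^ 5 ≤ ∑ T ∈ univ.filter (fun T => ∃ i, e.symm ⟨j, i⟩ ∈ T), W' T := by
    intro j
    have h6 := cs W hW S0 (fun i : Fin (kk sh j + 1) => e.symm ⟨j, i⟩) (300 / ((kk sh j : ℝ) + 1)) (Nat.succ_pos _)
      (by push_cast; rfl) (h2 j) (h3 j) hS0
    have h7 : ∑ T ∈ univ.filter (fun T => ∃ i, e.symm ⟨j, i⟩ ∈ T), W T ≤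
        ∑ T ∈ univ.filter (fun T => ∃ i, e.symm ⟨j, i⟩ ∈ T), W' T + 2 ^ (K0 + 1) * (δ * S0) := by
      calc _ ≤ ∑ T ∈ univ.filter (fun T => ∃ i, e.symm ⟨j, i⟩ ∈ T), (W' T + δ * S0) :=
            sum_le_sum fun T _ => hWW' T
        _ ≤ _ := by
            rw [sum_add_distrib, sum_const, nsmul_eq_mul]
            have h8 : ((univ.filter (fun T : Finset (Fin (K0 + 1)) => ∃ i, e.symm ⟨j, i⟩ ∈ T)).card : ℝ) ≤
                2 ^ (K0 + 1) := by
              have h9 : (univ.filter (fun T : Finset (Fin (K0 + 1)) => ∃ i, e.symm ⟨j, i⟩ ∈ T)).card ≤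
                  2 ^ (K0 + 1) := by
                refine (card_le_univ _).trans ?_
                rw [Fintype.card_finset, Fintype.card_fin]
              exact_mod_cast h9
            have h9 : 0 ≤ δ * S0 := by positivity
            nlinarith
    have h8 : 2 ^ (K0 + 1) * (δ * S0) = S0 / 10 ^ 6 := by
      rw [hδ]
      field_simp
    rw [h8] at h7
    have h9 : S0 / 10 ^ 5 ≤ S0 / 90300 - S0 / 10 ^ 6 := by
      have : S0 / 10 ^ 5 = S0 * (1 / 10 ^ 5) := by ring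
      nlinarith
    linarith
  obtain ⟨S, hS⟩ : ∃ S : ℝ, S = ∑ T, W' T := ⟨_, rfl⟩
  have hS2 : S ≤ 2 * S0 := by
    rw [hS]
    exact (sum_le_sum fun T _ => hW'le T).trans h1
  have hSpos : 0 < S := by
    obtain ⟨j00⟩ : Nonempty (Fin J) := ⟨⟨0, by omega⟩⟩
    have h6 := hhit j00
    have h7 : ∑ T ∈ univ.filter (fun T => ∃ i, e.symm ⟨j00, i⟩ ∈ T), W' T ≤ S := by
      rw [hS]
      exact sum_le_sum_of_subset_of_nonneg (filter_subset _ _) fun T _ _ => hW'0 T
    have h8 : 0 < S0 / 10 ^ 5 := by positivity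
    linarith
  refine ⟨fun T => W' T / S, fun T => div_nonneg (hW'0 T) hSpos.le, ?_, fun j => ?_, fun T hT => ?_⟩
  · rw [← sum_div, ← hS, div_self hSpos.ne']
  · rw [← sum_div, le_div_iff₀ hSpos]
    have h6 := hhit j
    have h7 : S0 / 10 ^ 5 = S0 * (1 / 10 ^ 5) := by ring
    rw [h7] at h6
    norm_num at h6 ⊢
    linarith
  · by_contra hcon
    apply hT
    show W' T / S = 0
    rw [hW', if_neg hcon, zero_div]

end Pool.Agent.H616.TG
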