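import Mathlib
import Pool.Agent.H616.TG.PInt

/-! Shares of the blocks in stages: the blocks `M s ≤ j < M (s + 1)` have equal shares of total size at most
`2 ^ (- s - 1)`. -/

set_option autoImplicit false

namespace Pool.Agent.H616.TG

open Finset Filter

/-- the stage of a block -/
noncomputable def stage (M : ℕ → ℕ) (j : ℕ) : ℕ := sInf {s | j < M (s + 1)}

theorem stage_le {M : ℕ → ℕ} {j n : ℕ} (h : j < M (n + 1)) : stage M j ≤ n := Nat.sInf_le h

theorem stage_eq {M : ℕ → ℕ} (hM : StrictMono M) {j n : ℕ} (h1 : M n ≤ j) (h2 : j < M (n + 1)) :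
    stage M j = n := by
  refine le_antisymm (stage_le h2) ?_
  have h3 : stage M j ∈ {s | j < M (s + 1)} := Nat.sInf_mem ⟨n, h2⟩
  have h4 : j < M (stage M j + 1) := h3
  by_contra hcon
  push Not at hcon
  have h5 : M (stage M j + 1) ≤ M n := hM.monotone (by omega)
  omega

/-- the shares are `1 / (sh M j + 2)` -/
noncomputable def sh (M : ℕ → ℕ) (j : ℕ) : ℕ := 2 ^ (stage M j + 1) * M (stage M j + 1)

theorem M_pos {M : ℕ → ℕ} (hM : StrictMono M) (n : ℕ) : 1 ≤ M (n + 1) := by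
  have h := hM (Nat.lt_succ_self n)
  have h2 : M n < M (n + 1) := h
  omega

theorem sh_sum_M {M : ℕ → ℕ} (hM : StrictMono M) (h0 : M 0 = 0) (n : ℕ) :
    ∑ j ∈ range (M n), 1 / ((sh M j : ℝ) + 2) ≤ 1 - (1 / 2) ^ n := by
  induction n with
  | zero => simp [h0]
  | succ n ih =>
    rw [← Finset.sum_range_add_sum_Ico _ (hM.monotone (Nat.le_succ n))]
    have hMn : (1 : ℝ) ≤ M (n + 1) := by exact_mod_cast M_pos hM n
    have h1 : ∑ j ∈ Ico (M n) (M (n + 1)), 1 / ((sh M j : ℝ) + 2) ≤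
        ∑ j ∈ Ico (M n) (M (n + 1)), 1 / ((2 : ℝ) ^ (n + 1) * M (n + 1)) := by
      refine sum_le_sum fun j hj => ?_
      rw [mem_Ico] at hj
      have h2 : sh M j = 2 ^ (n + 1) * M (n + 1) := by
        unfold sh
        rw [stage_eq hM hj.1 hj.2]
      rw [h2]
      push_cast
      apply one_div_le_one_div_of_le (by positivity)
      linarith
    have h3 : ∑ j ∈ Ico (M n) (M (n + 1)), 1 / ((2 : ℝ) ^ (n + 1) * M (n + 1)) ≤ (1 / 2) ^ (n + 1) := by
      rw [sum_const, Nat.card_Ico, nsmul_eq_mul, mul_one_div, div_le_iff₀ (by positivity)]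
      have h4 : ((M (n + 1) - M n : ℕ) : ℝ) ≤ M (n + 1) := by exact_mod_cast Nat.sub_le _ _
      have h5 : (1 / 2 : ℝ) ^ (n + 1) * (2 ^ (n + 1) * M (n + 1)) = M (n + 1) := by
        rw [← mul_assoc, ← mul_pow]
        norm_num
      rw [h5]
      exact h4
    have h6 : (1 / 2 : ℝ) ^ n = 2 * (1 / 2) ^ (n + 1) := by ring
    linarith

theorem sh_sum {M : ℕ → ℕ} (hM : StrictMono M) (h0 : M 0 = 0) (J : ℕ) :
    ∑ j ∈ range J, 1 / ((sh M j : ℝ) + 2) ≤ 1 := by
  have h1 : ∑ j ∈ range J, 1 / ((sh M j : ℝ) + 2) ≤ ∑ j ∈ range (M J), 1 / ((sh M j : ℝ) + 2) :=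
    sum_le_sum_of_subset_of_nonneg (range_subset_range.2 hM.le_apply) fun j _ _ => by positivity
  have h2 := sh_sum_M hM h0 J
  have h3 : (0 : ℝ) < (1 / 2) ^ J := by positivity
  linarith

/-- the number of the forms in the first `j` blocks -/
noncomputable def off (s : ℕ → ℕ) (j : ℕ) : ℕ := ∑ i ∈ range j, (kk s i + 1)

theorem off_succ (s : ℕ → ℕ) (j : ℕ) : off s (j + 1) = off s j + (kk s j + 1) := by
  unfold off
  rw [sum_range_succ]

theorem off_mono (s : ℕ → ℕ) : Monotone (off s) := monotone_nat_of_le_succ fun j => by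
  rw [off_succ]; omega

theorem off_ge (s : ℕ → ℕ) (j : ℕ) : j ≤ off s j := by
  induction j with
  | zero => omega
  | succ j ih => rw [off_succ]; omega

theorem log_off {M : ℕ → ℕ} (hM : StrictMono M) (n : ℕ) :
    Real.log (off (sh M) (M (n + 1))) ≤ 34 * (2 ^ (n + 1) * M (n + 1)) := by
  have hMn : (1 : ℝ) ≤ M (n + 1) := by exact_mod_cast M_pos hM n
  obtain ⟨B, hB⟩ : ∃ B : ℝ, B = 2 ^ (n + 1) * M (n + 1) := ⟨_, rfl⟩
  have h2n : (2 : ℝ) ≤ 2 ^ (n + 1) := by
    have : (1 : ℝ) ≤ 2 ^ n := one_le_pow₀ (by norm_num)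
    rw [pow_succ]
    linarith
  have hB2 : 2 ≤ B := by rw [hB]; nlinarith
  have hMB : (M (n + 1) : ℝ) ≤ B := by rw [hB]; nlinarith
  rw [← hB]
  have h1 : ∀ j ∈ range (M (n + 1)), ((kk (sh M) j + 1 : ℕ) : ℝ) ≤ Real.exp (33 * B) := by
    intro j hj
    have hj1 := mem_range.1 hj
    have h2 : (sh M j : ℝ) ≤ B := by
      have h3 := stage_le (M := M) hj1
      have h4 : sh M j ≤ 2 ^ (n + 1) * M (n + 1) := by
        unfold sh
        exact Nat.mul_le_mul (Nat.pow_le_pow_right (by norm_num) (by omega))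
          (hM.monotone (by omega))
      rw [hB]
      exact_mod_cast h4
    have h5 := kk2 (sh M) j
    rw [mm_r] at h5
    push_cast
    rw [← Real.log_le_iff_le_exp (by positivity)]
    linarith
  have h2 : (off (sh M) (M (n + 1)) : ℝ) ≤ M (n + 1) * Real.exp (33 * B) := by
    unfold off
    rw [Nat.cast_sum]
    refine (sum_le_sum h1).trans ?_
    rw [sum_const, card_range, nsmul_eq_mul]
  have h3 : (0 : ℝ) < off (sh M) (M (n + 1)) := by
    have := off_ge (sh M) (M (n + 1))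
    have h4 := M_pos hM n
    exact_mod_cast (by omega : 0 < off (sh M) (M (n + 1)))
  have h4 := Real.log_le_log h3 h2
  rw [Real.log_mul (by positivity) (Real.exp_pos _).ne', Real.log_exp] at h4
  have h5 := Real.log_le_sub_one_of_pos (show (0 : ℝ) < M (n + 1) by linarith)
  linarith

/-- the position of a form -/
noncomputable def pos {s : ℕ → ℕ} {J : ℕ} (i : Ix s J) : ℕ := off s i.1 + i.2

theorem pos_lt {s : ℕ → ℕ} {J : ℕ} (i : Ix s J) : pos i < off s (i.1 + 1) := by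
  unfold pos
  rw [off_succ]
  have := i.2.2
  omega

theorem pos_lt' {s : ℕ → ℕ} {J : ℕ} (i : Ix s J) : pos i < off s J :=
  (pos_lt i).trans_le (off_mono s (by have := i.1.2; omega))

theorem pos_ge {s : ℕ → ℕ} {J : ℕ} (i : Ix s J) : off s i.1 ≤ pos i := by
  unfold pos
  omega

theorem off_lt_imp {s : ℕ → ℕ} {j j' t : ℕ} (h1 : off s j ≤ t) (h2 : t < off s (j' + 1)) : j ≤ j' := by
  by_contra hcon
  have h3 : off s (j' + 1) ≤ off s j := off_mono s (by omega)
  omega

theorem pos_inj {s : ℕ → ℕ} {J : ℕ} : Function.Injective (pos (s := s) (J := J)) := by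
  rintro ⟨j, i⟩ ⟨j', i'⟩ h
  have a1 := pos_lt (⟨j, i⟩ : Ix s J)
  have a2 := pos_ge (⟨j', i'⟩ : Ix s J)
  have b1 := pos_lt (⟨j', i'⟩ : Ix s J)
  have b2 := pos_ge (⟨j, i⟩ : Ix s J)
  rw [h] at a1 b2
  have h1 : j = j' := Fin.ext (le_antisymm (off_lt_imp b2 b1) (off_lt_imp a2 a1))
  subst h1
  have h2 : (i : ℕ) = i' := by
    unfold pos at h
    simp only at h
    omega
  have h3 : i = i' := Fin.ext h2
  rw [h3]

open Classical in
/-- the number of the blocks `j < m` which contain a member of `T` -/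
noncomputable def H (s : ℕ → ℕ) (T : Finset ℕ) (m : ℕ) : ℕ :=
  ((range m).filter (fun j => ∃ t ∈ T, off s j ≤ t ∧ t < off s (j + 1))).card

theorem H_inter (s : ℕ → ℕ) (T : Finset ℕ) (m : ℕ) : H s (T ∩ range (off s m)) m = H s T m := by
  classical
  unfold H
  congr 1
  refine filter_congr fun j hj => ?_
  have h1 : off s (j + 1) ≤ off s m := off_mono s (by have := mem_range.1 hj; omega)
  constructor
  · rintro ⟨t, ht, h2⟩
    exact ⟨t, (mem_inter.1 ht).1, h2⟩
  · rintro ⟨t, ht, h2⟩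
    exact ⟨t, mem_inter.2 ⟨ht, mem_range.2 (h2.2.trans_le h1)⟩, h2⟩

theorem H_le (s : ℕ → ℕ) (T : Finset ℕ) (m : ℕ) : H s T m ≤ T.card := by
  classical
  unfold H
  have hch : ∀ j, ∃ t, j ∈ (range m).filter (fun j => ∃ t ∈ T, off s j ≤ t ∧ t < off s (j + 1)) →
      t ∈ T ∧ off s j ≤ t ∧ t < off s (j + 1) := by
    intro j
    by_cases hj : j ∈ (range m).filter (fun j => ∃ t ∈ T, off s j ≤ t ∧ t < off s (j + 1))
    · obtain ⟨t, ht⟩ := (mem_filter.1 hj).2
      exact ⟨t, fun _ => ht⟩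
    · exact ⟨0, fun h => absurd h hj⟩
  choose g hg using hch
  refine card_le_card_of_injOn g (fun j hj => (hg j hj).1) ?_
  intro j hj j' hj' he
  have h1 := hg j hj
  have h2 := hg j' hj'
  have he' : g j = g j' := he
  rw [he'] at h1
  exact le_antisymm (off_lt_imp h1.2.1 h2.2.2) (off_lt_imp h2.2.1 h1.2.2)

theorem H_le' (s : ℕ → ℕ) (T : Finset ℕ) (m : ℕ) : H s T m ≤ m := by
  classical
  unfold H
  refine (card_filter_le _ _).trans ?_
  rw [card_range]

end Pool.Agent.H616.TG
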