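import Mathlib
import Pool.Agent.H616.TG.Stage
import Pool.Agent.H616.TG.Path
import Pool.Graph.R_pool_sql_team_seeded_efc1946e.K1H86.TZ.Full

/-! Dense infinite subsequences of sequences of linear forms all of whose initial segments are the exact sets
of the prime values (growth version of the library file K1H86/TZ/Full). -/

set_option autoImplicit false

namespace Pool.Agent.H616.TG

open Finset Filter
open Pool.Agent.K1H86.PP (Often Seq prim_eq)
open Pool.Agent.K1H86.TZ (Pr Out RR RR_out RR_mono RR_ex FA FA_of)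

/-- expectation and probability -/
theorem prob_ge {α : Type*} [Fintype α] (P0 : α → ℝ) (h0 : ∀ T, 0 ≤ P0 T) (h1 : ∑ T, P0 T = 1) (h : α → ℝ)
    (m c : ℝ) (hm : 0 < m) (hc : 0 ≤ c) (hle : ∀ T, h T ≤ m) (hE : 2 * c * m ≤ ∑ T, h T * P0 T) :
    c ≤ ∑ T, {T | c * m ≤ h T}.indicator P0 T := by
  classical
  have h2 : ∑ T, h T * P0 T ≤ ∑ T, (m * {T | c * m ≤ h T}.indicator P0 T + c * m * P0 T) := by
    refine sum_le_sum fun T _ => ?_
    by_cases hT : T ∈ {T | c * m ≤ h T}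
    · rw [Set.indicator_of_mem hT]
      have h3 := mul_le_mul_of_nonneg_right (hle T) (h0 T)
      have : 0 ≤ c * m * P0 T := by have := h0 T; positivity
      linarith
    · rw [Set.indicator_of_notMem hT]
      have hT' : h T < c * m := not_le.1 hT
      have h3 := mul_le_mul_of_nonneg_right hT'.le (h0 T)
      linarith
  rw [sum_add_distrib, ← mul_sum, ← mul_sum, h1] at h2
  obtain ⟨S, hS⟩ : ∃ S : ℝ, S = ∑ T, {T | c * m ≤ h T}.indicator P0 T := ⟨_, rfl⟩
  rw [← hS] at h2 ⊢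
  have h3 : m * c ≤ m * S := by linarith
  exact le_of_mul_le_mul_left h3 hm

/-- a subsequence with many members in infinitely many stages, all of whose initial segments are exact -/
theorem dens_stage {f : ℕ → ℤ × ℤ} (hf : Seq f)
    (hloc : ∀ p : ℕ, p.Prime → ∃ n : ℕ, ∀ t, ¬ (p : ℤ) ∣ (f t).1 * n + (f t).2)
    {M : ℕ → ℕ} (hM : StrictMono M) (hM0 : M 0 = 0) :
    ∃ x : Set ℕ, (∀ k R, Out f R → ∃ C, Often C (fun n => (∀ t < k, (Pr (f t) n ↔ t ∈ x)) ∧
        ∀ r ∈ R, ¬ Pr r n)) ∧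
      ∀ i0, ∃ i, i0 ≤ i ∧ ∀ τ : Finset ℕ, (∀ t, t ∈ τ ↔ t < off (sh M) (M (i + 1)) ∧ t ∈ x) →
        1 / (2 * 10 ^ 6) * (M (i + 1) : ℝ) ≤ τ.card := by
  classical
  set s := sh M with hs
  set V : ℕ → Finset ℕ := fun i => range (off s (M i)) with hV
  set G : ℕ → Finset ℕ → Prop := fun i τ => ∃ C,
    Often C (fun n => (∀ t < off s (M i), (Pr (f t) n ↔ t ∈ τ)) ∧ ∀ r ∈ RR f i, ¬ Pr r n) with hG
  set F : ℕ → Set (Finset ℕ) := fun i => {T | 1 / (2 * 10 ^ 6) * (M (i + 1) : ℝ) ≤ H s T (M (i + 1))} with hFd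
  -- the measures
  have hP : ∀ J : ℕ, ∃ P0 : Finset (Ix s (M (J + 1))) → ℝ, (∀ T, 0 ≤ P0 T) ∧ ∑ T, P0 T = 1 ∧
      (∀ j : Fin (M (J + 1)), (1 / 10 ^ 6 : ℝ) ≤
        ∑ T ∈ univ.filter (fun T => ∃ i, (⟨j, i⟩ : Ix s (M (J + 1))) ∈ T), P0 T) ∧
      ∀ T, P0 T ≠ 0 → ∃ C, Often C (fun n => (∀ t < off s (M (J + 1)), (Pr (f t) n ↔
        t ∈ T.image pos)) ∧ ∀ r ∈ RR f (J + 1), ¬ Pr r n) := by
    intro J
    obtain ⟨C, hC⟩ := prob_int s (sh_sum hM hM0) (M (J + 1)) (M_pos hM J)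
    set Fam : Finset (ℤ × ℤ) := (range (off s (M (J + 1)))).image f ∪ RR f (J + 1) with hFam
    have hFamP : ∀ r ∈ Fam, 0 < r.1 ∧ IsCoprime r.1 r.2 := by
      intro r hr
      rw [hFam, mem_union] at hr
      rcases hr with hr | hr
      · obtain ⟨t, _, rfl⟩ := mem_image.1 hr
        exact ⟨hf.pos t, hf.prim t⟩
      · exact ⟨(RR_out f _ r hr).1, (RR_out f _ r hr).2.1⟩
    have hg : ∀ i : Ix s (M (J + 1)), f (pos i) ∈ Fam := by
      intro i
      rw [hFam]
      exact mem_union_left _ (mem_image_of_mem _ (mem_range.2 (pos_lt' i)))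
    obtain ⟨P0, h1, h2, h3, h4⟩ := hC (ι := {r // r ∈ Fam}) (fun r => r.1.1) (fun r => r.1.2)
      (fun r => (hFamP _ r.2).1)
      (by
        intro r r' hrr he
        apply hrr
        obtain ⟨h1, h2⟩ := prim_eq (hFamP _ r.2).1 (hFamP _ r'.2).1 (hFamP _ r.2).2 (hFamP _ r'.2).2 he
        exact Subtype.ext (Prod.ext h1 h2))
      (fun i => ⟨f (pos i), hg i⟩)
      (by
        intro i i' hii
        exact pos_inj (hf.inj (Subtype.ext_iff.1 hii)))
      (by
        intro p hp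
        obtain ⟨n, hn⟩ := hloc p hp
        exact ⟨n, fun i => hn (pos i)⟩)
    refine ⟨P0, h1, h2, h3, fun T hT => ⟨C, (h4 T hT).mono fun n hn => ⟨fun t ht => ?_, fun r hr => ?_⟩⟩⟩
    · have h5 := hn ⟨f t, by rw [hFam]; exact mem_union_left _ (mem_image_of_mem _ (mem_range.2 ht))⟩
      show ((f t).1 * (n : ℤ) + (f t).2).natAbs.Prime ↔ _
      rw [h5, mem_image]
      constructor
      · rintro ⟨i, hi, he⟩
        exact ⟨i, hi, hf.inj (Subtype.ext_iff.1 he)⟩
      · rintro ⟨i, hi, he⟩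
        exact ⟨i, hi, Subtype.ext (congrArg f he)⟩
    · have h5 := hn ⟨r, by rw [hFam]; exact mem_union_right _ hr⟩
      intro h6
      obtain ⟨i, _, he⟩ := h5.1 h6
      exact (RR_out f _ r hr).2.2 _ (Subtype.ext_iff.1 he).symm
  choose P0 hP0 hP1 hP2 hP3 using hP
  obtain ⟨x, -, hxG, hxF⟩ := path V
    (fun i j hij => range_subset_range.2 (off_mono s (hM.monotone hij)))
    (by simp [hV, off, hM0]) G
    (fun J A => ∑ T, A.indicator (fun _ => P0 J T) (T.image pos))
    (fun J => FA_of (P0 J) (hP0 J) (hP1 J) _)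
    (by
      intro i J hiJ
      apply sum_eq_zero
      intro T _
      by_cases h : T.image pos ∈ {T' | ¬ G i (T' ∩ V i)}
      · rw [Set.indicator_of_mem h]
        by_contra hcon
        apply h
        obtain ⟨C, hC⟩ := hP3 J T hcon
        refine ⟨C, hC.mono fun n hn => ⟨fun t ht => ?_, fun r hr => hn.2 r (RR_mono f (by omega) hr)⟩⟩
        have h1 : off s (M i) ≤ off s (M (J + 1)) := off_mono s (hM.monotone (by omega))
        rw [hn.1 t (by omega), mem_inter]
        constructor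
        · intro h2
          exact ⟨h2, mem_range.2 ht⟩
        · exact fun h2 => h2.1
      · rw [Set.indicator_of_notMem h])
    F
    (by
      intro j T
      show 1 / (2 * 10 ^ 6) * (M (j + 1) : ℝ) ≤ H s T (M (j + 1)) ↔
        1 / (2 * 10 ^ 6) * (M (j + 1) : ℝ) ≤ H s (T ∩ range (off s (M (j + 1)))) (M (j + 1))
      rw [H_inter])
    (1 / (2 * 10 ^ 6)) (by norm_num)
    (by
      intro i J hiJ
      have hMi : (1 : ℝ) ≤ M (i + 1) := by exact_mod_cast M_pos hM i
      have hMiJ : M (i + 1) ≤ M (J + 1) := hM.monotone (by omega)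
      have key := prob_ge (P0 J) (hP0 J) (hP1 J) (fun T => (H s (T.image pos) (M (i + 1)) : ℝ))
        (M (i + 1)) (1 / (2 * 10 ^ 6)) (by linarith) (by norm_num)
        (fun T => by exact_mod_cast H_le' s _ _)
        (by
          have h1 : ∀ T : Finset (Ix s (M (J + 1))), ∑ j ∈ range (M (i + 1)),
              (if ∃ h : j < M (J + 1), ∃ i', (⟨⟨j, h⟩, i'⟩ : Ix s (M (J + 1))) ∈ T then P0 J T else 0) ≤
              (H s (T.image pos) (M (i + 1)) : ℝ) * P0 J T := by
            intro T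
            rw [← sum_filter, sum_const, nsmul_eq_mul]
            apply mul_le_mul_of_nonneg_right _ (hP0 J T)
            unfold H
            refine Nat.cast_le.2 (card_le_card ?_)
            intro j hj
            rw [mem_filter] at hj ⊢
            obtain ⟨hj1, h, i', hi'⟩ := hj
            exact ⟨hj1, _, mem_image_of_mem _ hi', pos_ge (⟨⟨j, h⟩, i'⟩ : Ix s (M (J + 1))),
              pos_lt (⟨⟨j, h⟩, i'⟩ : Ix s (M (J + 1)))⟩
          refine le_trans ?_ (sum_le_sum fun T _ => h1 T)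
          rw [sum_comm]
          have h2 : ∀ j ∈ range (M (i + 1)), (1 / 10 ^ 6 : ℝ) ≤ ∑ T : Finset (Ix s (M (J + 1))),
              (if ∃ h : j < M (J + 1), ∃ i', (⟨⟨j, h⟩, i'⟩ : Ix s (M (J + 1))) ∈ T then P0 J T else 0) := by
            intro j hj
            have hjJ : j < M (J + 1) := (mem_range.1 hj).trans_le hMiJ
            refine (hP2 J ⟨j, hjJ⟩).trans ?_
            rw [sum_filter]
            refine sum_le_sum fun T _ => ?_
            by_cases h : ∃ i', (⟨⟨j, hjJ⟩, i'⟩ : Ix s (M (J + 1))) ∈ T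
            · rw [if_pos h, if_pos ⟨hjJ, h⟩]
            · rw [if_neg h]
              split_ifs
              · exact hP0 J T
              · exact le_rfl
          refine le_trans ?_ (sum_le_sum h2)
          rw [sum_const, card_range, nsmul_eq_mul]
          linarith)
      refine key.trans (le_of_eq ?_)
      refine sum_congr rfl fun T _ => ?_
      simp only [Set.indicator_apply, Set.mem_ofPred_eq, hFd])
  refine ⟨x, fun k R hR => ?_, fun i0 => ?_⟩
  · obtain ⟨J, hJ⟩ := RR_ex f R hR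
    obtain ⟨i, hi⟩ : ∃ i, i = J + k := ⟨_, rfl⟩
    have hki : k ≤ off s (M i) := by
      have h4 := off_ge s (M i)
      have h5 := hM.le_apply (x := i)
      omega
    obtain ⟨C, hC⟩ := hxG i ((V i).filter (fun t => t ∈ x)) (fun t => by rw [mem_filter])
    refine ⟨C, hC.mono fun n hn => ⟨fun t ht => ?_, fun r hr => hn.2 r (RR_mono f (by omega) (hJ hr))⟩⟩
    rw [hn.1 t (by omega), mem_filter]
    constructor
    · exact fun h => h.2
    · exact fun h => ⟨mem_range.2 (by omega), h⟩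
  · obtain ⟨i, hi, h⟩ := hxF i0
    refine ⟨i, hi, fun τ hτ => ?_⟩
    have h1 : τ ∈ F i := h τ (fun t => by rw [hτ, mem_range])
    have h2 : 1 / (2 * 10 ^ 6) * (M (i + 1) : ℝ) ≤ H s τ (M (i + 1)) := h1
    refine h2.trans ?_
    exact_mod_cast H_le s τ (M (i + 1))

/-- **Growth.** Every locally solvable sequence of linear forms has an infinite subsequence, all of whose
initial segments are exact sets of prime values, with at least `log N / (C 2 ^ i)` members among the first `N`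
forms for infinitely many `i` and some `N ≥ θ i`; here `θ` is an arbitrary sequence. -/
theorem dens {f : ℕ → ℤ × ℤ} (hf : Seq f)
    (hloc : ∀ p : ℕ, p.Prime → ∃ n : ℕ, ∀ t, ¬ (p : ℤ) ∣ (f t).1 * n + (f t).2) (th : ℕ → ℕ) :
    ∃ x : Set ℕ, x.Infinite ∧ (∀ k R, Out f R → ∃ C, Often C (fun n => (∀ t < k, (Pr (f t) n ↔ t ∈ x)) ∧
        ∀ r ∈ R, ¬ Pr r n)) ∧
      ∀ i0, ∃ i, i0 ≤ i ∧ ∃ N, th i ≤ N ∧ ∀ τ : Finset ℕ, (∀ t, t ∈ τ ↔ t < N ∧ t ∈ x) →
        Real.log N ≤ 68 * 10 ^ 6 * (2 : ℝ) ^ (i + 1) * τ.card := by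
  classical
  obtain ⟨M, hMd⟩ : ∃ M : ℕ → ℕ, ∀ i, M i = i + ∑ l ∈ range i, th l := ⟨_, fun _ => rfl⟩
  have hM : StrictMono M := by
    apply strictMono_nat_of_lt_succ
    intro i
    rw [hMd, hMd, sum_range_succ]
    omega
  have hM0 : M 0 = 0 := by rw [hMd]; simp
  have hMth : ∀ i, th i ≤ M (i + 1) := by
    intro i
    rw [hMd, sum_range_succ]
    omega
  obtain ⟨x, hx1, hx2⟩ := dens_stage hf hloc hM hM0
  refine ⟨x, ?_, hx1, fun i0 => ?_⟩
  · intro hfin
    obtain ⟨i0, hi0⟩ := exists_nat_gt ((hfin.toFinset.card : ℝ) * (2 * 10 ^ 6))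
    obtain ⟨i, hi, h⟩ := hx2 i0
    have h1 := h (hfin.toFinset.filter (fun t => t < off (sh M) (M (i + 1)))) (by
      intro t
      rw [mem_filter, Set.Finite.mem_toFinset]
      tauto)
    have h2 : ((hfin.toFinset.filter (fun t => t < off (sh M) (M (i + 1)))).card : ℝ) ≤
        hfin.toFinset.card := by exact_mod_cast card_filter_le _ _
    have h3 : (i : ℝ) ≤ M (i + 1) := by
      have h4 := hM.le_apply (x := i + 1)
      exact_mod_cast (by omega : i ≤ M (i + 1))
    have h4 : (i0 : ℝ) ≤ i := by exact_mod_cast hi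
    have h5 : (M (i + 1) : ℝ) = 1 / (2 * 10 ^ 6) * (M (i + 1) : ℝ) * (2 * 10 ^ 6) := by ring
    have h6 := mul_le_mul_of_nonneg_right (h1.trans h2) (show (0 : ℝ) ≤ 2 * 10 ^ 6 by norm_num)
    linarith
  · obtain ⟨i, hi, h⟩ := hx2 i0
    have hoff := off_ge (sh M) (M (i + 1))
    have := hMth i
    refine ⟨i, hi, off (sh M) (M (i + 1)), by omega, fun τ hτ => ?_⟩
    have h1 := h τ hτ
    have h2 := log_off hM i
    refine h2.trans ?_
    have h4 : 34 * ((2 : ℝ) ^ (i + 1) * M (i + 1)) =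
        68 * 10 ^ 6 * (2 : ℝ) ^ (i + 1) * (1 / (2 * 10 ^ 6) * (M (i + 1) : ℝ)) := by ring
    rw [h4]
    exact mul_le_mul_of_nonneg_left h1 (by positivity)

end Pool.Agent.H616.TG
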